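import Mathlib

namespace Pool.Agent.Results.MP_2fbd40_lc.Full

open FirstOrder

/-- function symbols of the language of contact algebras -/
inductive Fn : ℕ → Type
  | zero : Fn 0
  | one : Fn 0
  | star : Fn 1
  | mul : Fn 2
  | add : Fn 2

/-- the binary relation symbol `C` -/
inductive Rl : ℕ → Type
  | contact : Rl 2

/-- the language of contact algebras -/
def LC : Language := ⟨Fn, Rl⟩

/-- regular closed sets -/
def RC (X : Type) [TopologicalSpace X] : Type := {a : Set X // closure (interior a) = a}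

theorem rc_open {X : Type} [TopologicalSpace X] {U : Set X} (h : IsOpen U) :
    closure (interior (closure U)) = closure U :=
  Set.Subset.antisymm (closure_minimal interior_subset isClosed_closure)
    (closure_mono (interior_maximal subset_closure h))

theorem rc_closed {X : Type} [TopologicalSpace X] (a : RC X) : IsClosed a.1 :=
  a.2 ▸ isClosed_closure

theorem rc_union {X : Type} [TopologicalSpace X] (a b : RC X) :
    closure (interior (a.1 ∪ b.1)) = a.1 ∪ b.1 := by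
  apply Set.Subset.antisymm
    (closure_minimal interior_subset ((rc_closed a).union (rc_closed b)))
  rintro x (h | h)
  · rw [← a.2] at h
    exact closure_mono (interior_mono Set.subset_union_left) h
  · rw [← b.2] at h
    exact closure_mono (interior_mono Set.subset_union_right) h

/-- the standard contact algebra of regular closed sets -/
instance (X : Type) [TopologicalSpace X] : LC.Structure (RC X) where
  funMap
    | Fn.zero, _ => ⟨∅, by simp⟩
    | Fn.one, _ => ⟨Set.univ, by simp⟩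
    | Fn.star, v => ⟨closure (v 0).1ᶜ, rc_open (rc_closed (v 0)).isOpen_compl⟩
    | Fn.mul, v => ⟨closure (interior ((v 0).1 ∩ (v 1).1)), rc_open isOpen_interior⟩
    | Fn.add, v => ⟨(v 0).1 ∪ (v 1).1, rc_union _ _⟩
  RelMap
    | Rl.contact, v => ((v 0).1 ∩ (v 1).1).Nonempty

/-- two finite spaces on seven points -/
def Sp (_ : Bool) : Type := Fin 7

def rb (b : Bool) (x y : Fin 7) : Bool :=
  x == y || (match x.val, y.val with
    | 3, 0 => true | 3, 1 => true | 4, 0 => true | 4, 2 => true | 5, 1 => true | 5, 2 => true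
    | 6, 0 => true | 6, 1 => true | 6, 2 => b | _, _ => false)

def r (b : Bool) (x y : Fin 7) : Prop := rb b x y = true

instance (b : Bool) (x y : Fin 7) : Decidable (r b x y) := inferInstanceAs (Decidable (_ = _))

theorem r_refl : ∀ b x, r b x x := by decide
theorem r_trans : ∀ b x y z, r b x y → r b y z → r b x z := by decide +kernel

instance (b : Bool) : TopologicalSpace (Sp b) where
  IsOpen U := ∀ x y : Fin 7, r b x y → x ∈ U → y ∈ U
  isOpen_univ _ _ _ _ := trivial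
  isOpen_inter _ _ h1 h2 x y h hx := ⟨h1 x y h hx.1, h2 x y h hx.2⟩
  isOpen_sUnion _ h x y hxy := fun ⟨t, ht, hx⟩ => ⟨t, ht, h t ht x y hxy hx⟩

theorem mem_int (b : Bool) (A : Set (Sp b)) (x : Fin 7) :
    x ∈ interior A ↔ ∀ y : Fin 7, r b x y → y ∈ A := by
  constructor
  · intro h y hy
    have ho : IsOpen (interior A) := isOpen_interior
    exact interior_subset (s := A) (ho x y hy h)
  · intro h
    have ho : IsOpen (X := Sp b) {y : Fin 7 | r b x y} := fun y z h1 h2 => r_trans b x y z h2 h1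
    exact interior_maximal (X := Sp b) (s := A) (fun y hy => h y hy) ho (r_refl b x)

theorem mem_cl (b : Bool) (A : Set (Sp b)) (x : Fin 7) :
    x ∈ closure A ↔ ∃ y : Fin 7, r b x y ∧ y ∈ A := by
  rw [closure_eq_compl_interior_compl]
  show ¬ x ∈ interior Aᶜ ↔ _
  rw [mem_int]
  simp only [not_forall]
  constructor
  · rintro ⟨y, h1, h2⟩
    exact ⟨y, h1, not_not.1 h2⟩
  · rintro ⟨y, h1, h2⟩
    exact ⟨y, h1, fun h => h h2⟩

def pt (i : Fin 3) : Fin 7 := Fin.castLE (by omega) i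

theorem r_pt : ∀ b i y, r b (pt i) y → y = pt i := by decide
theorem r_ex : ∀ b x, ∃ i, r b x (pt i) := by decide
theorem pt_inj : ∀ i j, pt i = pt j → i = j := by decide
theorem r_two : ∀ b i j, ∃ x, r b x (pt i) ∧ r b x (pt j) := by decide

theorem cl_int (b : Bool) (A : Set (Sp b)) (x : Fin 7) :
    x ∈ closure (interior A) ↔ ∃ i, r b x (pt i) ∧ pt i ∈ A := by
  rw [mem_cl]
  constructor
  · rintro ⟨y, h1, h2⟩
    obtain ⟨i, hi⟩ := r_ex b y
    exact ⟨i, r_trans _ _ _ _ h1 hi, (mem_int b A y).1 h2 _ hi⟩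
  · rintro ⟨i, h1, h2⟩
    refine ⟨pt i, h1, (mem_int b A _).2 fun y hy => ?_⟩
    rw [r_pt b i y hy]
    exact h2

theorem mem_rc (b : Bool) (a : RC (Sp b)) (x : Fin 7) :
    x ∈ a.1 ↔ ∃ i, r b x (pt i) ∧ pt i ∈ a.1 := by
  rw [← cl_int, a.2]

def g (b : Bool) (S : Set (Fin 3)) : RC (Sp b) :=
  ⟨{x : Fin 7 | ∃ i, r b x (pt i) ∧ i ∈ S}, by
    ext x
    refine (cl_int b _ x).trans ⟨?_, ?_⟩
    · rintro ⟨i, h1, j, h2, h3⟩
      exact ⟨j, r_trans _ _ _ _ h1 h2, h3⟩
    · rintro ⟨i, h1, h2⟩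
      exact ⟨i, h1, i, r_refl _ _, h2⟩⟩

theorem pt_g (b : Bool) (S : Set (Fin 3)) (i : Fin 3) : pt i ∈ (g b S).1 ↔ i ∈ S := by
  constructor
  · rintro ⟨j, h1, h2⟩
    rwa [← pt_inj _ _ (r_pt _ _ _ h1)]
  · exact fun h => ⟨i, r_refl _ _, h⟩

theorem rc_ext {b : Bool} {a a' : RC (Sp b)} (h : ∀ i, pt i ∈ a.1 ↔ pt i ∈ a'.1) : a = a' := by
  apply Subtype.ext
  ext x
  refine (mem_rc b a x).trans (Iff.trans ?_ (mem_rc b a' x).symm)
  simp only [h]

def tr (b b' : Bool) (a : RC (Sp b)) : RC (Sp b') := g b' {i | pt i ∈ a.1}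

theorem pt_tr (b b' : Bool) (a : RC (Sp b)) (i : Fin 3) : pt i ∈ (tr b b' a).1 ↔ pt i ∈ a.1 :=
  pt_g _ _ _

theorem pt_cl (b : Bool) (A : Set (Sp b)) (i : Fin 3) : pt i ∈ closure A ↔ pt i ∈ A := by
  rw [mem_cl]
  constructor
  · rintro ⟨y, h1, h2⟩
    rwa [r_pt b i y h1] at h2
  · exact fun h => ⟨_, r_refl _ _, h⟩

theorem pt_int (b : Bool) (A : Set (Sp b)) (i : Fin 3) : pt i ∈ interior A ↔ pt i ∈ A := by
  rw [mem_int]
  constructor
  · exact fun h => h _ (r_refl _ _)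
  · intro h y hy
    rwa [r_pt b i y hy]

theorem meet_iff (b : Bool) (a a' : RC (Sp b)) :
    (a.1 ∩ a'.1).Nonempty ↔ (∃ i, pt i ∈ a.1) ∧ ∃ j, pt j ∈ a'.1 := by
  constructor
  · rintro ⟨x, h1, h2⟩
    obtain ⟨i, -, hi⟩ := (mem_rc b a x).1 h1
    obtain ⟨j, -, hj⟩ := (mem_rc b a' x).1 h2
    exact ⟨⟨i, hi⟩, ⟨j, hj⟩⟩
  · rintro ⟨⟨i, hi⟩, ⟨j, hj⟩⟩
    obtain ⟨x, h1, h2⟩ := r_two b i j
    exact ⟨x, (mem_rc b a x).2 ⟨i, h1, hi⟩, (mem_rc b a' x).2 ⟨j, h2, hj⟩⟩

def iso : Language.Equiv LC (RC (Sp true)) (RC (Sp false)) where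
  toFun := tr true false
  invFun := tr false true
  left_inv a := rc_ext fun i => by rw [pt_tr, pt_tr]
  right_inv a := rc_ext fun i => by rw [pt_tr, pt_tr]
  map_fun' := by
    intro n f v
    apply rc_ext
    intro i
    refine (pt_tr _ _ _ _).trans ?_
    cases f
    · exact Iff.rfl
    · exact Iff.rfl
    · refine (pt_cl _ _ _).trans (Iff.trans ?_ (pt_cl _ _ _).symm)
      exact not_congr (pt_tr _ _ _ _).symm
    · refine ((pt_cl _ _ _).trans (pt_int _ _ _)).trans
        (Iff.trans ?_ ((pt_cl _ _ _).trans (pt_int _ _ _)).symm)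
      exact and_congr (pt_tr _ _ _ _).symm (pt_tr _ _ _ _).symm
    · exact or_congr (pt_tr _ _ _ _).symm (pt_tr _ _ _ _).symm
  map_rel' := by
    intro n f v
    cases f
    refine (meet_iff _ _ _).trans (Iff.trans ?_ (meet_iff _ _ _).symm)
    exact and_congr (exists_congr fun i => pt_tr _ _ _ _) (exists_congr fun i => pt_tr _ _ _ _)

theorem result (n : ℕ) (hn : 3 ≤ n) : ¬ ∃ φ : LC.Formula (Fin n),
    ∀ (X : Type) [TopologicalSpace X] (a : Fin n → RC X),
      φ.Realize a ↔ (⋂ i, (a i).1).Nonempty := by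
  rintro ⟨φ, h⟩
  let s : Fin n → Fin 3 := fun i => ⟨i.val % 3, Nat.mod_lt _ (by omega)⟩
  let a : Fin n → RC (Sp true) := fun i => g true {s i}
  have h1 : φ.Realize a := by
    rw [h]
    refine ⟨(6 : Fin 7), Set.mem_iInter.2 fun i => ⟨s i, ?_, rfl⟩⟩
    generalize s i = j
    revert j
    decide
  have h2 := (Language.StrongHomClass.realize_formula iso φ (v := a)).2 h1
  rw [h] at h2
  obtain ⟨x, hx⟩ := h2
  have h3 : ∀ j : Fin 3, r false x (pt j) := by
    intro j
    have h4 := Set.mem_iInter.1 hx ⟨j.val, by omega⟩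
    obtain ⟨i, h5, h6⟩ := h4
    have h7 : i = s ⟨j.val, by omega⟩ := (pt_g true _ i).1 h6
    have h8 : s ⟨j.val, by omega⟩ = j := Fin.ext (Nat.mod_eq_of_lt j.2)
    rwa [h7, h8] at h5
  have h9 : ∀ y : Fin 7, ¬ ∀ j : Fin 3, r false y (pt j) := by decide
  exact h9 x h3

end Pool.Agent.Results.MP_2fbd40_lc.Full
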